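import Pool.Agent.H852.J.S4

/-!
# The Tate conjecture over the rational numbers for the Jacobians in the towers of the quadratic
# polynomials `x ^ 2 + c` of Stoll's theorem, for rational `c`

Let `c = P / q ^ 2`, with coprime integers `P`, `q ≠ 0` such that

* `P > 0`, and `P ≡ 2` modulo `4` with `q` odd, or `P ≡ 3` modulo `4` with `q` even; or
* `P ≤ -2 q ^ 2`, `-P` is not a square, and `P ≡ 0` modulo `4` with `q` odd, or `P ≡ 1` modulo `4` with `q` even.

For `q = 1` these are the integers `c > 0`, `c ≡ 2` modulo `4`, and `c < 0`, `c ≡ 0` modulo `4`, `-c` not a square, for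
which Stoll (1992) showed that the Galois groups of all the iterates of `x ^ 2 + c` are as large as possible
(iterated wreath products of groups of order two). Let `φ^n` be the iterates of `φ = x ^ 2 + c` and

  `D n : y ^ 2 = (x - c) φ^n(x)`, `n ≥ 1`,

a curve of genus `2 ^ (n - 1)`. The hyperelliptic curve `y ^ 2 = φ^(N + 1)(x) = φ^N(φ(x))` has the additional
involution `x ↦ -x`, with the quotients `y ^ 2 = φ^N(x)` and `D N`; so its Jacobian is isogenous to the product
of the Jacobians `J(D 1), ..., J(D N)`, all with multiplicity one.

**Theorem.** (1) For every finite set of levels `n ≥ 1` the property `EveryPrime` holds (with `Z` a point): for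
EVERY prime number `ℓ` the Tate classes on all the products `∏ J(D n) ^ (m n)` are linear combinations of
products of Tate classes of degree two, which are algebraic by Faltings. So the Tate conjecture, at every
`ℓ` and in all degrees, is true for all powers of the Jacobians of all curves `y ^ 2 = φ^N(x)`.

(2) Let `Z` be ANY pure motive over the rational numbers, for instance `H ^ w` of any smooth projective
variety, with a lattice `τ` over `ℤ_2` (`IsLattice`: continuous, with values in the matrices over `ℤ_2`). Then
there is a level `N` such that `EveryPrime` holds for `Z` and all finite sets of levels `n ≥ N`: for EVERY prime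
number `ℓ` all Tate classes on `∏ J(D n) ^ (m n) × Z` are combinations of products of Tate classes of degree two
on the abelian variety and Tate classes of `Z`. So the Tate conjecture for all these products is EQUIVALENT
to the Tate conjecture for `Z`. There is no hypothesis on the ramification of `Z`: it is proved that the lattice
is unramified modulo four outside of a finite set of places.

There is no hypothesis on the curves. All the Galois groups of the polynomials are 2-groups. In contrast to the
polynomials `x ^ 2 - s x + s` the values `φ^n(0)` are NOT pairwise coprime up to their common factor: the sequence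
is a divisibility sequence, and the existence of a prime factor of `φ^n(0)` with an odd exponent which does
not divide `φ^m(0)` for any `m < n` is the main point of the proof.

The definitions `EveryPrime` and `IsLattice` are those of the module
`Pool.Graph.R_pool_sql_team_seeded_63374d34.Results.MP_640417_ag.HyperellipticEveryPrime`. There is no exception in
`EveryPrime` for `ℓ`; its data are the Frobenius polynomials `P v` of the action on the 2-adic Tate modules of the
Jacobians (the groups of points of the Jacobians are the class groups of the rings `F[x, y]`) and `Q v` of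
`Z`, pure of weights `1` and `w`, outside of a finite set of places, and the conclusion concerns all the
representations `V` over `ℚ_ℓ` with the properties of `V_ℓ(A)` for the abelian variety `A` (Weil pairing,
semisimplicity, Frobenius polynomials `P v`) and all `ℓ`-adic realizations of `Z` (Frobenius polynomials `Q v`).

Idea of the proof. Write `φ^n(0) = P w n / q ^ (2 ^ n)`. The integers `w n` are odd, `|w n| ≡ 3` modulo `4` for
`n ≥ 2`, and all exponents of a prime in the terms `w n` which it divides are equal; so, if all the
primitive prime factors of `w n` had even exponents, the product of all the `|w d|` with `n / d` squarefree would be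
a square. For squarefree `n` it is `3` modulo `4`. In the other case consider the Jacobi symbols of `w k` over
`|w d|`, for `k` prime to `n`. By quadratic reciprocity and periodicity the symbol is `-1` exactly if the
inverse of `k` modulo `d`, between `0` and `d`, is larger than `d / 2`; it is shown, by counting the multiples of
the divisors of the radical of `n`, that for a suitable `k` the number of the `d` with this property is odd, so the
product is not a square. So for each level `n` there is an odd prime number `p` at which the curves `D j`,
`j < n`, have good reduction, and `D n` acquires exactly one node with an ODD multiplicity. The rest of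
the proof is as for `MP_938ce2_ag.QuadraticTowers`: these places give square roots of transvections on
`T_2 J(D n)`, trivial modulo four on the other factors, and a triangular induction over the levels shows that
the image of Galois contains, infinitesimally, the product of the symplectic Lie algebras, with component
zero on `Z`. The passage from `2` to all prime numbers `ℓ` is the one of helper197 (relations between Frobenius
eigenvalues which hold for infinitely many places, `Pool.Agent.N197.AP.main20`).
-/

set_option autoImplicit false

namespace Pool.Agent.Results.MP_de8692_ag.StollTowers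

open Polynomial NumberField IsDedekindDomain
open Pool.Agent.Results.MP_640417_ag.HyperellipticEveryPrime (AbsoluteGaloisGroup IsLattice
  EveryPrime)

/-- The congruences for the parameter `c = P / q ^ 2` which is positive. -/
def Positive (P q : ℤ) : Prop :=
  0 < P ∧ ((q % 2 = 1 ∧ P % 4 = 2) ∨ (q % 2 = 0 ∧ P % 4 = 3))

/-- The conditions for the parameter `c = P / q ^ 2` which is negative. -/
def Negative (P q : ℤ) : Prop :=
  P ≤ -(2 * q ^ 2) ∧ ¬ IsSquare (-P) ∧ ((q % 2 = 1 ∧ P % 4 = 0) ∨ (q % 2 = 0 ∧ P % 4 = 1))

/-- The polynomial `x ^ 2 + P / q ^ 2`. -/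
noncomputable def quadratic (P q : ℤ) : ℚ[X] := X ^ 2 + C ((P : ℚ) / (q : ℚ) ^ 2)

/-- the `n`-th iterate of the polynomial `φ` -/
noncomputable def iterate (φ : ℚ[X]) : ℕ → ℚ[X]
  | 0 => X
  | n + 1 => (iterate φ n).comp φ

/-- The polynomial `(x - c) φ^n(x)`, for `φ = x ^ 2 + c` and `c = P / q ^ 2`. -/
noncomputable def level (P q : ℤ) (n : ℕ) : ℚ[X] :=
  (X - C ((P : ℚ) / (q : ℚ) ^ 2)) * iterate (quadratic P q) n

theorem iterate_eq (P q : ℤ) (n : ℕ) : iterate (quadratic P q) n =
    Pool.Agent.H852.J.iter (0 : ℚ) ((P : ℚ) / (q : ℚ) ^ 2) n := by
  induction n with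
  | zero => rfl
  | succ n ih =>
    rw [iterate, ih, Pool.Agent.H852.J.iter]
    congr 1
    unfold quadratic Pool.Agent.H852.J.quad
    simp

theorem level_eq (P q : ℤ) (n : ℕ) :
    level P q n = Pool.Agent.H852.J.level (0 : ℚ) ((P : ℚ) / (q : ℚ) ^ 2) n := by
  rw [level, iterate_eq, Pool.Agent.H852.J.level]

/-- **The Tate conjecture at every prime number for the towers of the polynomials `x ^ 2 + P / q ^ 2`.** -/
theorem result (P q : ℤ) (hq : q ≠ 0) (hPq : IsCoprime P q) (hc : Positive P q ∨ Negative P q) :
    (∀ S : Finset ℕ, S.Nonempty → (∀ n ∈ S, 1 ≤ n) →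
      EveryPrime (fun n : S => level P q n)
        (1 : AbsoluteGaloisGroup ℚ →* Matrix (Fin 1) (Fin 1) ℚ_[2])) ∧
    ∀ (d : ℕ) (τ : AbsoluteGaloisGroup ℚ →* Matrix (Fin d) (Fin d) ℚ_[2]), IsLattice τ →
      ∃ N : ℕ, ∀ S : Finset ℕ, S.Nonempty → (∀ n ∈ S, N ≤ n) →
        EveryPrime (fun n : S => level P q n) τ := by
  have hq2 : 0 < q ^ 2 := by positivity
  have hst : Pool.Agent.H852.J.Stoll P q := by
    refine ⟨hq, hPq, ?_⟩
    rcases hc with h | ⟨h1, -, h3⟩
    · exact Or.inl h
    · exact Or.inr ⟨by linarith, by linarith, h3⟩
  have hneg : ¬ IsSquare (-((P : ℚ) / (q : ℚ) ^ 2)) := by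
    refine Pool.Agent.H852.J.stoll_neg hst ?_
    rcases hc with h | ⟨-, h2, -⟩
    · rintro ⟨x, hx⟩
      have h1 := h.1
      nlinarith [mul_self_nonneg x]
    · exact h2
  have hpl : ∀ n : ℕ, ∃ v : HeightOneSpectrum (𝓞 ℚ), 1 ≤ n →
      Pool.Agent.H852.J.CritPlace (0 : ℚ) ((P : ℚ) / (q : ℚ) ^ 2) n v := by
    intro n
    rcases Nat.eq_zero_or_pos n with rfl | hn
    · obtain ⟨v, -⟩ := Pool.Agent.H852.J.critPlace_stoll hst 1 le_rfl
      exact ⟨v, fun h => absurd h (by norm_num)⟩
    · obtain ⟨v, hv⟩ := Pool.Agent.H852.J.critPlace_stoll hst n hn
      exact ⟨v, fun _ => hv⟩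
  choose v hv using hpl
  have key : ∀ S : Finset ℕ, S.Nonempty → (∀ n ∈ S, 1 ≤ n) →
      ∀ (d : ℕ) (τ : AbsoluteGaloisGroup ℚ →* Matrix (Fin d) (Fin d) ℚ_[2]), IsLattice τ →
        (∀ n ∈ S, Pool.Agent.H852.J.Unramified τ (v n)) →
        EveryPrime (fun n : S => level P q n) τ := by
    intro S hS hS1 d τ hτ hun
    have h1 := Pool.Agent.H852.J.tower_everyPrime hneg v hv S hS hS1 τ hτ hun
    have h2 : (fun n : S => level P q n) =
        fun n : S => Pool.Agent.H852.J.level (0 : ℚ) ((P : ℚ) / (q : ℚ) ^ 2) n :=
      funext fun n => level_eq P q n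
    rw [h2]
    exact h1
  refine ⟨fun S hS hS1 => key S hS hS1 1 1 (Pool.Agent.H852.J.isLattice_one 1)
    fun n _ => Pool.Agent.H852.J.unramified_one 1 (v n), fun d τ hτ => ?_⟩
  -- only finitely many levels have a ramified place
  have hfin := Pool.Agent.H852.J.unramified_finite τ hτ
  have hinj : Set.InjOn v (Set.Ici 1) := by
    intro m hm n hn hmn
    by_contra hne
    rcases lt_or_gt_of_ne hne with h | h
    · exact (hv m hm).ne h (hv n hn) hmn
    · exact (hv n hn).ne h (hv m hm) hmn.symm
  have hfin' : {n : ℕ | 1 ≤ n ∧ ¬ Pool.Agent.H852.J.Unramified τ (v n)}.Finite := by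
    refine Set.Finite.of_finite_image (f := v) (hfin.subset ?_) fun m hm n hn h =>
      hinj hm.1 hn.1 h
    rintro _ ⟨n, hn, rfl⟩
    exact hn.2
  obtain ⟨N, hN⟩ := hfin'.bddAbove
  refine ⟨N + 1, fun S hS hS1 => key S hS (fun n hn => by have := hS1 n hn; omega) d τ hτ
    fun n hn => ?_⟩
  by_contra h
  have h1 : n ≤ N := hN ⟨by have := hS1 n hn; omega, h⟩
  have h2 := hS1 n hn
  omega

end Pool.Agent.Results.MP_de8692_ag.StollTowers
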