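import Pool.Agent.H851.MK.FamP

/-!
# The `ℓ`-adic Lie algebra and the Tate classes of a sum of motives of K3 type

Let `M_1, ..., M_r` be motives of K3 type over a number field `K` (`h^{2,0} = 1`), for example `H^2(X_j)` for
K3 surfaces, or for any smooth projective varieties with `h^{2,0} = 1`, or `H^4(2)` of cubic fourfolds, in any
combination, and `V_j` their `ℓ`-adic realizations. We assume that `V_j` is semisimple, that its Tate
endomorphisms (those which commute with an open subgroup of the Galois group) are scalars on the
transcendental part `T_j`, the orthogonal complement of the Tate classes, and that `dim T_j ≥ 3`, `dim T_j ≠ 4`.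
There may be nonzero homomorphisms between the `T_j`. If the varieties `X_j` have `b_1 = 0` then the sum of
the `H^2(X_j)` is `H^2` of the product of the `X_j`.

**Theorem.** (1) The Lie algebra of the `ℓ`-adic monodromy group of `M_1(1) ⊕ ... ⊕ M_r(1)`, that is the space of
the matrices which kill all Tate tensors, consists of the tuples `(X_1, ..., X_r)`, `X_j` in `so(T_j)`, with
`Y X_i = X_j Y` for all Tate homomorphisms `Y : V_i → V_j`.

(2) The following conditions are equivalent: (a) for `i ≠ j` all Tate homomorphisms `V_i → V_j` vanish on `T_i`;
(b) the Lie algebra of the sum is the product of the Lie algebras of the `M_j(1)`; (c) for all finite sets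
`A_1, ..., A_r` every form on `V_1(1) ^ A_1 × ... × V_r(1) ^ A_r` which is invariant under an open subgroup is a
linear combination of products of such forms on the `V_j(1) ^ A_j`.

On the other hand the motivic Galois group and the Mumford-Tate group of the sum are contained in the products of
those of the `M_j(1)`, whose identity components are contained in `SO(T_j)` if the Tate classes are algebraic, and
they commute with the motivated homomorphisms; and the `ℓ`-adic group is contained in the motivic one. So by
(1), the motivic Mumford-Tate conjecture (on the level of Lie algebras) holds for the sum, and for all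
motives in the tensor category which it generates, as soon as the Tate classes in the `V_j` and in the
`Hom(V_i, V_j)` are motivated: it is reduced to pairs, without an assumption on the moduli (for products
of K3 surfaces it was proved by Commelin, with the Kuga-Satake construction). By (2) the Tate classes on all
products of powers of the `X_j` come from the powers of the `X_j` if there are no homomorphisms. The condition
`dim T_j ≠ 4` is necessary: for elliptic curves `E, E', E''` without complex multiplication, which are not
isogenous, the transcendental parts `H^1(E) ⊗ H^1(E')` and `H^1(E) ⊗ H^1(E'')` have no homomorphisms, and their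
Lie algebra is `sl_2 ^ 3` and not `so_4 ^ 2 = sl_2 ^ 4`.

The proof. If the projection of the Lie algebra of `V ⊕ V' ⊕ W` to `so(T) × so(T')` is not surjective, it is the
graph of an isomorphism (`so(T)` is simple). Take a place of degree one where `V` and `V'` are ordinary (Newton
polygons `0, 1, ..., 1, 2`) and an embedding of the algebraic numbers into the algebraic closure of `ℚ_p`; the
valuations of the eigenvalues of Frobenius give an element of the Lie algebra over the algebraic closure of
`ℚ_ℓ`, which on `V` and on `V'` has the simple eigenvalues `1, -1` and otherwise `0`. The isomorphism respects the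
eigenspaces of its adjoint action, and it follows that it comes from an isomorphism of `T` and `T'`, which by
Galois descent gives a nonzero Tate homomorphism. The Lie algebra of the sum is then found by taking brackets
of elements which vanish on one of the summands. In (2) forms are decomposed with projections in one
variable after the other.

The facts on `V_j` which are used are collected in the structure `IsK3Type`, see
`Pool.Agent.Results.MP_b8862a_ag.KThreeEndomorphisms`: at almost all primes `p` and places of degree one above `p` the
characteristic polynomial of the Frobenius element is monic with integral coefficients, with zeros of absolute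
value `p` (Weil conjectures), and its Newton polygon lies above the Hodge polygon (Mazur, Berthelot, Ogus). The
matrix `tw χ ρ g = χ(g)⁻¹ ρ(g)` is the action on `V(1)`, as `χ` is the inverse of the cyclotomic character. No
`p`-adic Hodge theory at `ℓ` and no abelian varieties are used.
-/

set_option autoImplicit false

namespace Pool.Agent.Results.MP_de8692_ag.SumsOfKThreeType

open Polynomial NumberField IsDedekindDomain Matrix
open Pool.Agent.H851.K3
open Pool.Agent.H851.KT (tateLie)
open Pool.Agent.H851.MK (Scalar TateHom sumRep FamInv famProd)
open Pool.Agent.NH56.HY (GK)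

/-- **The Lie algebra and the Tate classes of a sum of motives of K3 type.** `ρ j` is the action of the Galois
group of `K` on `V_j = ℚ_ℓ ^ (n j)`, `q j` the form, `χ` the inverse of the cyclotomic character, `sumRep ρ` the
direct sum of the `ρ j`, given by block diagonal matrices. -/
theorem result {K : Type} [Field K] [NumberField K] {ℓ : ℕ} [Fact ℓ.Prime] {r : ℕ}
    {n : Fin r → Type} [∀ j, Fintype (n j)] [∀ j, DecidableEq (n j)]
    {q : ∀ j, Matrix (n j) (n j) ℚ_[ℓ]} {S : Fin r → Finset ℕ} {χ : GK K →* ℚ_[ℓ]}
    {Pol : Fin r → HeightOneSpectrum (𝓞 K) → ℤ[X]} {ρ : ∀ j, GK K →* Matrix (n j) (n j) ℚ_[ℓ]}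
    (h : ∀ j, Scalar (q j) (S j) χ (Pol j) (ρ j)) :
    (∀ Z : Matrix (Σ j, n j) (Σ j, n j) ℚ_[ℓ], Z ∈ tateLie χ (sumRep ρ) ↔
      ∃ X : ∀ j, Matrix (n j) (n j) ℚ_[ℓ], Z = Matrix.blockDiagonal' X ∧
        (∀ j, (X j)ᵀ * q j + q j * X j = 0 ∧ ∀ x ∈ tate χ (ρ j), X j *ᵥ x = 0) ∧
        ∀ i j (Y : Matrix (n j) (n i) ℚ_[ℓ]), TateHom (ρ i) (ρ j) Y → Y * X i = X j * Y) ∧
    List.TFAE [∀ i j, i ≠ j → ∀ Y, TateHom (ρ i) (ρ j) Y →
        ∀ x ∈ orth (q i) (tate χ (ρ i)), Y *ᵥ x = 0,
      ∀ X : ∀ j, Matrix (n j) (n j) ℚ_[ℓ], (∀ j, X j ∈ tateLie χ (ρ j)) →
        Matrix.blockDiagonal' X ∈ tateLie χ (sumRep ρ),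
      ∀ (A : Fin r → Type) [∀ j, Fintype (A j)] [∀ j, DecidableEq (A j)]
        (F : (∀ j, A j → n j) → ℚ_[ℓ]), FamInv χ ρ F → F ∈ famProd χ ρ A] :=
  ⟨Pool.Agent.H851.MK.tateLie_sum' h, Pool.Agent.H851.MK.fam_indep h⟩

end Pool.Agent.Results.MP_de8692_ag.SumsOfKThreeType
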